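import Pool.Agent.H20.SWL.NB

/-!
W_CU: the number of the lattice points in a box.
-/

set_option autoImplicit false

open NumberField NumberField.InfinitePlace NumberField.Units Set Filter Complex
open scoped nonZeroDivisors

namespace Pool.Agent.H20.SWL

open Pool.Agent.H31.SW
open Pool.Agent.H23.LC Pool.Agent.H23.LB Pool.Agent.H25.HK
open Pool.Agent.H29.DW (dg Rl lf wv Pos Wg cpar Ci om zs rv norm_wv wv_add)

theorem exists_k (n : ℕ) (hn : 0 < n) (A : ℝ) (hA : 0 ≤ A) :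
    ∃ k : ℕ, 1 ≤ k ∧ A < (k : ℝ) ^ n ∧ (k : ℝ) ^ n ≤ 1 + 2 ^ n * A := by
  classical
  have hex : ∃ k : ℕ, 1 ≤ k ∧ A < (k : ℝ) ^ n := by
    obtain ⟨m, hm⟩ := exists_nat_gt A
    refine ⟨m + 1, by omega, hm.trans ?_⟩
    have h1 : (1 : ℝ) ≤ ((m + 1 : ℕ) : ℝ) := by
      push_cast
      linarith [(Nat.cast_nonneg m : (0 : ℝ) ≤ m)]
    calc (m : ℝ) < ((m + 1 : ℕ) : ℝ) := by push_cast; linarith
      _ = ((m + 1 : ℕ) : ℝ) ^ 1 := (pow_one _).symm
      _ ≤ ((m + 1 : ℕ) : ℝ) ^ n := pow_le_pow_right₀ h1 hn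
  obtain ⟨h1, h2⟩ := Nat.find_spec hex
  have h3 := fun m hm => Nat.find_min hex (m := m) hm
  generalize Nat.find hex = k at h1 h2 h3
  refine ⟨k, h1, h2, ?_⟩
  rcases Nat.lt_or_ge 1 k with hk | hk
  · have h4 : ((k - 1 : ℕ) : ℝ) ^ n ≤ A := by
      have := h3 (k - 1) (by omega)
      push Not at this
      exact this (by omega)
    have h5 : (k : ℝ) ≤ 2 * ((k - 1 : ℕ) : ℝ) := by
      have : k ≤ 2 * (k - 1) := by omega
      exact_mod_cast this
    calc (k : ℝ) ^ n ≤ (2 * ((k - 1 : ℕ) : ℝ)) ^ n := pow_le_pow_left₀ (Nat.cast_nonneg k) h5 n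
      _ = 2 ^ n * ((k - 1 : ℕ) : ℝ) ^ n := mul_pow _ _ _
      _ ≤ 2 ^ n * A := mul_le_mul_of_nonneg_left h4 (by positivity)
      _ ≤ 1 + 2 ^ n * A := by linarith
  · obtain rfl : k = 1 := by omega
    have : (0 : ℝ) ≤ 2 ^ n * A := by positivity
    simp only [Nat.cast_one, one_pow]
    linarith

/-- the cell of a real number -/
theorem cell_mem {k : ℕ} {R t : ℝ} (hR : 0 ≤ R) (ht : |t| ≤ R) :
    ⌊(k : ℝ) * t / R⌋ ∈ Finset.Icc (-(k : ℤ)) k := by
  have h1 : |(k : ℝ) * t / R| ≤ k := by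
    rw [abs_div, abs_mul, Nat.abs_cast, abs_of_nonneg hR]
    rcases eq_or_lt_of_le hR with h | h
    · rw [← h, div_zero]
      exact Nat.cast_nonneg k
    · rw [div_le_iff₀ h]
      exact mul_le_mul_of_nonneg_left ht (Nat.cast_nonneg k)
  rw [abs_le] at h1
  rw [Finset.mem_Icc]
  constructor
  · rw [Int.le_floor]
    push_cast
    exact h1.1
  · have h2 : ((⌊(k : ℝ) * t / R⌋ : ℤ) : ℝ) ≤ k := (Int.floor_le _).trans h1.2
    exact_mod_cast h2

theorem cell_eq {k : ℕ} (hk : 1 ≤ k) {R t t' : ℝ} (hR : 0 ≤ R) (ht : |t| ≤ R) (ht' : |t'| ≤ R)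
    (h : ⌊(k : ℝ) * t / R⌋ = ⌊(k : ℝ) * t' / R⌋) : |t - t'| ≤ R / k := by
  have hk0 : (0 : ℝ) < k := by exact_mod_cast hk
  rcases eq_or_lt_of_le hR with h0 | h0
  · rw [← h0] at ht ht' ⊢
    have e1 : t = 0 := by
      rw [← abs_nonpos_iff]; exact ht
    have e2 : t' = 0 := by
      rw [← abs_nonpos_iff]; exact ht'
    rw [e1, e2, sub_zero, abs_zero, zero_div]
  · have h1 := Int.abs_sub_lt_one_of_floor_eq_floor h
    have h2 : (k : ℝ) * t / R - (k : ℝ) * t' / R = (t - t') * (k / R) := by ring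
    rw [h2, abs_mul, abs_of_pos (div_pos hk0 h0)] at h1
    rw [le_div_iff₀ hk0]
    have h3 : |t - t'| * (k / R) * R = |t - t'| * k := by
      field_simp
    have h4 := mul_lt_mul_of_pos_right h1 h0
    rw [h3, one_mul] at h4
    exact h4.le

theorem pf_CU : W_CU := by
  intro n hn
  refine ⟨12 ^ n, one_le_pow₀ (by norm_num), ?_⟩
  intro K _ _ hKn L y ω c R hL hω hR
  classical
  set S : Set K := {x : K | x ∈ L ∧ ∀ v, ‖wv v x y ω - c v‖ ≤ R v} with hS
  set Q : ℝ := DD L y * PP R with hQ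
  have hQ0 : 0 ≤ Q := mul_nonneg (DD_pos L hL y).le (PP_nonneg hR)
  obtain ⟨k, hk1, hk2, hk3⟩ := exists_k n hn (2 ^ n * Q) (by positivity)
  have hk0 : (0 : ℝ) < k := by exact_mod_cast hk1
  set φ : K → (InfinitePlace K → ℤ × ℤ) := fun x v =>
    (⌊(k : ℝ) * (wv v x y ω - c v).re / R v⌋, ⌊(k : ℝ) * (wv v x y ω - c v).im / R v⌋) with hφ
  set T : Finset (InfinitePlace K → ℤ × ℤ) := Fintype.piFinset fun v =>
    (Finset.Icc (-(k : ℤ)) k) ×ˢ (if v.IsReal then {⌊(k : ℝ) * (-(c v).im) / R v⌋} else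
      Finset.Icc (-(k : ℤ)) k) with hT
  have hmaps : ∀ x ∈ S, φ x ∈ T := by
    intro x hx
    rw [hT, Fintype.mem_piFinset]
    intro v
    have h1 := hx.2 v
    rw [Finset.mem_product]
    refine ⟨cell_mem (hR v) ((Complex.abs_re_le_norm _).trans h1), ?_⟩
    split_ifs with hv
    · rw [Finset.mem_singleton]
      have h2 : (wv v x y ω).im = 0 := by
        unfold wv
        have e1 : (v.embedding x).im = 0 := by
          have := (InfinitePlace.isReal_iff.1 hv)
          exact Complex.conj_eq_iff_im.1 (RingHom.congr_fun this x)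
        rw [Complex.mul_im, Complex.mul_im, hω.real v hv, e1, Complex.ofReal_im]
        ring
      simp only [hφ, Complex.sub_im, h2, zero_sub]
    · exact cell_mem (hR v) ((Complex.abs_im_le_norm _).trans h1)
  have hinj : Set.InjOn φ S := by
    intro x hx x' hx' hxx
    by_contra hne
    have h0 : x - x' ≠ 0 := sub_ne_zero.2 hne
    have hmem : x - x' ∈ L := L.coeToSubmodule.sub_mem hx.1 hx'.1
    have h1 := pf_NB K L y ω (x - x') hL hω hmem h0
    have h2 : ∀ v : InfinitePlace K, ‖wv v (x - x') y ω‖ ≤ 2 * R v / k := by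
      intro v
      have e1 : wv v (x - x') y ω = (wv v x y ω - c v) - (wv v x' y ω - c v) := by
        unfold wv
        rw [map_sub]
        ring
      have e2 := congrFun hxx v
      simp only [hφ, Prod.mk.injEq] at e2
      have e3 := cell_eq hk1 (hR v) ((Complex.abs_re_le_norm _).trans (hx.2 v))
        ((Complex.abs_re_le_norm _).trans (hx'.2 v)) e2.1
      have e4 := cell_eq hk1 (hR v) ((Complex.abs_im_le_norm _).trans (hx.2 v))
        ((Complex.abs_im_le_norm _).trans (hx'.2 v)) e2.2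
      rw [← Complex.sub_re] at e3
      rw [← Complex.sub_im] at e4
      rw [e1]
      have e5 := Complex.norm_le_abs_re_add_abs_im ((wv v x y ω - c v) - (wv v x' y ω - c v))
      have e6 : 2 * R v / k = R v / k + R v / k := by ring
      rw [e6]
      linarith
    have h3 : ∏ v : InfinitePlace K, ‖wv v (x - x') y ω‖ ^ v.mult ≤ PP R * (2 / k) ^ n := by
      calc ∏ v : InfinitePlace K, ‖wv v (x - x') y ω‖ ^ v.mult
          ≤ ∏ v : InfinitePlace K, (2 * R v / k) ^ v.mult :=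
            Finset.prod_le_prod (fun v _ => pow_nonneg (norm_nonneg _) _)
              fun v _ => pow_le_pow_left₀ (norm_nonneg _) (h2 v) _
        _ = ∏ v : InfinitePlace K, (R v ^ v.mult * (2 / k : ℝ) ^ v.mult) := by
            refine Finset.prod_congr rfl fun v _ => ?_
            rw [← mul_pow]
            congr 1
            ring
        _ = PP R * (2 / k) ^ n := by
            rw [Finset.prod_mul_distrib, Finset.prod_pow_eq_pow_sum,
              InfinitePlace.sum_mult_eq, hKn]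
            rfl
    have h4 : (1 : ℝ) ≤ Q * (2 / k) ^ n := by
      calc (1 : ℝ) ≤ DD L y * ∏ v : InfinitePlace K, ‖wv v (x - x') y ω‖ ^ v.mult := h1
        _ ≤ DD L y * (PP R * (2 / k) ^ n) :=
            mul_le_mul_of_nonneg_left h3 (DD_pos L hL y).le
        _ = _ := by rw [hQ]; ring
    have h5 : Q * (2 / k) ^ n * (k : ℝ) ^ n = 2 ^ n * Q := by
      rw [div_pow]
      field_simp
    have h6 : (k : ℝ) ^ n ≤ 2 ^ n * Q := by
      rw [← h5]
      exact le_mul_of_one_le_left (by positivity) h4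
    linarith
  have hfin : S.Finite := Set.Finite.of_injOn (t := (T : Set _)) (fun x hx => hmaps x hx) hinj
    (Finset.finite_toSet T)
  refine ⟨hfin, ?_⟩
  have h1 : S.ncard ≤ (T : Set _).ncard :=
    Set.ncard_le_ncard_of_injOn φ (fun x hx => hmaps x hx) hinj (Finset.finite_toSet T)
  rw [Set.ncard_coe_finset] at h1
  have h2 : T.card = (2 * k + 1) ^ n := by
    rw [hT, Fintype.card_piFinset]
    have h3 : ∀ v : InfinitePlace K, ((Finset.Icc (-(k : ℤ)) k) ×ˢ (if v.IsReal then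
        {⌊(k : ℝ) * (-(c v).im) / R v⌋} else Finset.Icc (-(k : ℤ)) k)).card =
        (2 * k + 1) ^ v.mult := by
      intro v
      rw [Finset.card_product, Int.card_Icc]
      have e1 : ((k : ℤ) + 1 - -(k : ℤ)).toNat = 2 * k + 1 := by omega
      rw [e1]
      unfold InfinitePlace.mult
      split_ifs with hv
      · rw [Finset.card_singleton, mul_one, pow_one]
      · rw [Int.card_Icc, e1, pow_two]
    rw [Finset.prod_congr rfl fun v _ => h3 v, Finset.prod_pow_eq_pow_sum,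
      InfinitePlace.sum_mult_eq, hKn]
  rw [h2] at h1
  have h4 : ((2 * k + 1 : ℕ) : ℝ) ≤ 3 * k := by
    have : 2 * k + 1 ≤ 3 * k := by omega
    exact_mod_cast this
  calc (S.ncard : ℝ) ≤ (((2 * k + 1) ^ n : ℕ) : ℝ) := by exact_mod_cast h1
    _ = ((2 * k + 1 : ℕ) : ℝ) ^ n := by push_cast; ring
    _ ≤ (3 * (k : ℝ)) ^ n := pow_le_pow_left₀ (Nat.cast_nonneg _) h4 n
    _ = 3 ^ n * (k : ℝ) ^ n := mul_pow _ _ _
    _ ≤ 3 ^ n * (1 + 2 ^ n * (2 ^ n * Q)) :=
        mul_le_mul_of_nonneg_left hk3 (by positivity)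
    _ ≤ 12 ^ n * (1 + Q) := by
        have e1 : (12 : ℝ) ^ n = 3 ^ n * (2 ^ n * 2 ^ n) := by
          rw [← mul_pow, ← mul_pow]
          norm_num
        have e2 : (1 : ℝ) ≤ 2 ^ n * 2 ^ n := by
          have : (1 : ℝ) ≤ 2 ^ n := one_le_pow₀ (by norm_num)
          nlinarith
        rw [e1, mul_assoc]
        refine mul_le_mul_of_nonneg_left ?_ (by positivity)
        have e3 : (2 : ℝ) ^ n * 2 ^ n * (1 + Q) = 2 ^ n * 2 ^ n + 2 ^ n * (2 ^ n * Q) := by ring
        rw [e3]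
        linarith

end Pool.Agent.H20.SWL
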