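import Pool.Agent.H20.SWL.CU

/-!
W_DY: sums of negative powers over the nonzero points of a box.
-/

set_option autoImplicit false

open NumberField NumberField.InfinitePlace NumberField.Units Set Filter Complex
open scoped nonZeroDivisors

namespace Pool.Agent.H20.SWL

open Pool.Agent.H31.SW
open Pool.Agent.H23.LC Pool.Agent.H23.LB Pool.Agent.H25.HK
open Pool.Agent.H29.DW (dg Rl lf wv Pos Wg cpar Ci om zs rv norm_wv wv_add)

/-- the square root of `2 ^ (-e)` -/
noncomputable def sq2 (e : ℕ) : ℝ := (1 / 2 : ℝ) ^ ((e : ℝ) / 2)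

theorem sq2_pos (e : ℕ) : 0 < sq2 e := Real.rpow_pos_of_pos (by norm_num) _

theorem sq2_sq (e : ℕ) : sq2 e ^ 2 = (1 / 2 : ℝ) ^ e := by
  unfold sq2
  rw [← Real.rpow_natCast, ← Real.rpow_mul (by norm_num)]
  rw [show ((e : ℝ) / 2) * ((2 : ℕ) : ℝ) = (e : ℝ) by push_cast; ring, Real.rpow_natCast]

theorem sq2_le (e : ℕ) (he : 1 ≤ e) : sq2 e ≤ 3 / 4 := by
  have h1 := sq2_sq e
  have h2 : (1 / 2 : ℝ) ^ e ≤ 1 / 2 := by
    calc (1 / 2 : ℝ) ^ e ≤ (1 / 2 : ℝ) ^ 1 := pow_le_pow_of_le_one (by norm_num) (by norm_num) he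
      _ = 1 / 2 := pow_one _
  have h3 := sq2_pos e
  nlinarith

theorem le_sq2 (e : ℕ) (he : e ≤ 2) : 1 / 2 ≤ sq2 e := by
  have h1 := sq2_sq e
  have h2 : (1 / 2 : ℝ) ^ 2 ≤ (1 / 2 : ℝ) ^ e :=
    pow_le_pow_of_le_one (by norm_num) (by norm_num) he
  have h3 := sq2_pos e
  nlinarith

theorem mult_le {K : Type} [Field K] (v : InfinitePlace K) : 1 ≤ v.mult ∧ v.mult ≤ 2 := by
  unfold InfinitePlace.mult
  split_ifs <;> omega

/-- one factor -/
theorem fac (e j : ℕ) (t : ℝ) (ht : (1 / 2 : ℝ) ^ (j + 1) < t) :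
    t ^ (-(e : ℝ) / 2) ≤ (sq2 e)⁻¹ * ((sq2 e)⁻¹) ^ j := by
  have h0 : (0 : ℝ) < (1 / 2 : ℝ) ^ (j + 1) := by positivity
  have h1 : t ^ (-(e : ℝ) / 2) ≤ ((1 / 2 : ℝ) ^ (j + 1)) ^ (-(e : ℝ) / 2) :=
    Real.rpow_le_rpow_of_nonpos h0 ht.le (by
      have : (0 : ℝ) ≤ e := Nat.cast_nonneg e
      linarith)
  refine h1.trans (le_of_eq ?_)
  unfold sq2
  rw [← pow_succ', ← Real.rpow_neg (by norm_num), ← Real.rpow_natCast, ← Real.rpow_natCast,
    ← Real.rpow_mul (by norm_num), ← Real.rpow_mul (by norm_num)]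
  congr 1
  ring

theorem pf_DY : W_DY := by
  intro n hn
  obtain ⟨C₀, hC₀, hCU⟩ := pf_CU n hn
  refine ⟨2 * C₀ * 8 ^ n, ?_, ?_⟩
  · have : (1 : ℝ) ≤ 8 ^ n := one_le_pow₀ (by norm_num)
    nlinarith
  intro K _ _ hKn L y ω R X hL hω hR hX
  classical
  have hC0 : 0 < C₀ := by linarith
  set Q : ℝ := DD L y * PP R with hQ
  have hDD := DD_pos L hL y
  have hPP : 0 < PP R := Finset.prod_pos fun v _ => pow_pos (hR v) _
  have hQ0 : 0 < Q := mul_pos hDD hPP
  -- the dyadic exponents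
  have hex : ∀ x v, ∃ j : ℕ, x ∈ X → (1 / 2 : ℝ) ^ (j + 1) < ‖wv v x y ω‖ / R v ∧
      ‖wv v x y ω‖ / R v ≤ (1 / 2 : ℝ) ^ j := by
    intro x v
    by_cases hx : x ∈ X
    · obtain ⟨-, hx0, hxR⟩ := hX x hx
      have h1 : 0 < ‖wv v x y ω‖ / R v := by
        refine div_pos ?_ (hR v)
        rw [norm_wv v x y hω]
        exact mul_pos (InfinitePlace.pos_iff.2 hx0) (Real.exp_pos _)
      have h2 : ‖wv v x y ω‖ / R v ≤ 1 := (div_le_one (hR v)).2 (hxR v)
      obtain ⟨j, hj⟩ := exists_nat_pow_near_of_lt_one h1 h2 (by norm_num : (0 : ℝ) < 1 / 2)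
        (by norm_num)
      exact ⟨j, fun _ => hj⟩
    · exact ⟨0, fun h => absurd h hx⟩
  choose J hJ using hex
  -- the number of points with given exponents
  have hcnt : ∀ j : InfinitePlace K → ℕ, ((X.filter fun x => J x = j).card : ℝ) ≤
      2 * C₀ * Q * ∏ v : InfinitePlace K, ((sq2 v.mult) ^ 2) ^ j v := by
    intro j
    have hPPj : PP (fun v => (1 / 2 : ℝ) ^ j v * R v) =
        PP R * ∏ v : InfinitePlace K, ((sq2 v.mult) ^ 2) ^ j v := by
      unfold PP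
      rw [← Finset.prod_mul_distrib]
      refine Finset.prod_congr rfl fun v _ => ?_
      rw [sq2_sq, mul_pow, ← pow_mul, ← pow_mul, mul_comm (j v), mul_comm]
    have hpos : 0 < ∏ v : InfinitePlace K, ((sq2 v.mult) ^ 2) ^ j v :=
      Finset.prod_pos fun v _ => pow_pos (pow_pos (sq2_pos _) _) _
    rcases (X.filter fun x => J x = j).eq_empty_or_nonempty with he | ⟨x₀, hx₀⟩
    · rw [he, Finset.card_empty, Nat.cast_zero]
      positivity
    · have hle : ∀ x ∈ X.filter (fun x => J x = j), ∀ v : InfinitePlace K,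
          ‖wv v x y ω‖ ≤ (1 / 2 : ℝ) ^ j v * R v := by
        intro x hx v
        rw [Finset.mem_filter] at hx
        have h1 := (hJ x v hx.1).2
        rw [hx.2] at h1
        exact (div_le_iff₀ (hR v)).1 h1
      obtain ⟨hf, hc⟩ := hCU K hKn L y ω (fun _ => 0) (fun v => (1 / 2 : ℝ) ^ j v * R v) hL hω
        (fun v => by have := hR v; positivity)
      have h1 : ((X.filter fun x => J x = j : Finset K) : Set K) ⊆
          {x : K | x ∈ L ∧ ∀ v, ‖wv v x y ω - (0 : ℂ)‖ ≤ (1 / 2 : ℝ) ^ j v * R v} := by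
        intro x hx
        have hx' : x ∈ X.filter fun x => J x = j := hx
        refine ⟨(hX x (Finset.mem_filter.1 hx').1).1, fun v => ?_⟩
        rw [sub_zero]
        exact hle x hx' v
      have h2 := Set.ncard_le_ncard h1 hf
      rw [Set.ncard_coe_finset] at h2
      have h3 : (1 : ℝ) ≤ DD L y * PP (fun v => (1 / 2 : ℝ) ^ j v * R v) := by
        have hx₀' := Finset.mem_filter.1 hx₀
        obtain ⟨a1, a2, -⟩ := hX x₀ hx₀'.1
        refine (pf_NB K L y ω x₀ hL hω a1 a2).trans ?_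
        refine mul_le_mul_of_nonneg_left ?_ hDD.le
        exact Finset.prod_le_prod (fun v _ => pow_nonneg (norm_nonneg _) _)
          fun v _ => pow_le_pow_left₀ (norm_nonneg _) (hle x₀ hx₀ v) _
      calc ((X.filter fun x => J x = j).card : ℝ)
          ≤ C₀ * (1 + DD L y * PP (fun v => (1 / 2 : ℝ) ^ j v * R v)) :=
            le_trans (by exact_mod_cast h2) hc
        _ ≤ C₀ * (2 * (DD L y * PP (fun v => (1 / 2 : ℝ) ^ j v * R v))) :=
            mul_le_mul_of_nonneg_left (by linarith) hC0.le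
        _ = _ := by rw [hPPj, hQ]; ring
  -- the terms
  have hterm : ∀ x ∈ X, ∏ v : InfinitePlace K, (‖wv v x y ω‖ / R v) ^ (-(v.mult : ℝ) / 2) ≤
      ∏ v : InfinitePlace K, ((sq2 v.mult)⁻¹ * ((sq2 v.mult)⁻¹) ^ J x v) := by
    intro x hx
    refine Finset.prod_le_prod (fun v _ => Real.rpow_nonneg
      (div_nonneg (norm_nonneg _) (hR v).le) _) fun v _ => ?_
    exact fac _ _ _ (hJ x v hx).1
  set A : ℝ := ∏ v : InfinitePlace K, (sq2 v.mult)⁻¹ with hA
  have hA0 : 0 < A := Finset.prod_pos fun v _ => inv_pos.2 (sq2_pos _)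
  -- a common bound for the exponents
  obtain ⟨M, hM⟩ : ∃ M : ℕ, ∀ x ∈ X, ∀ v, J x v < M := by
    refine ⟨(X ×ˢ (Finset.univ : Finset (InfinitePlace K))).sup (fun p => J p.1 p.2) + 1,
      fun x hx v => ?_⟩
    have : J x v ≤ (X ×ˢ (Finset.univ : Finset (InfinitePlace K))).sup (fun p => J p.1 p.2) :=
      Finset.le_sup (f := fun p : K × InfinitePlace K => J p.1 p.2) (b := (x, v))
        (Finset.mem_product.2 ⟨hx, Finset.mem_univ _⟩)
    omega
  set Y : Finset (InfinitePlace K → ℕ) := Fintype.piFinset fun _ => Finset.range M with hY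
  have hJY : ∀ x ∈ X, J x ∈ Y := by
    intro x hx
    rw [hY, Fintype.mem_piFinset]
    intro v
    rw [Finset.mem_range]
    exact hM x hx v
  have hsum : ∑ x ∈ X, ∏ v : InfinitePlace K, ((sq2 v.mult)⁻¹ * ((sq2 v.mult)⁻¹) ^ J x v) ≤
      ∑ j ∈ Y, 2 * C₀ * Q * A * ∏ v : InfinitePlace K, (sq2 v.mult) ^ j v := by
    rw [← Finset.sum_fiberwise_of_maps_to (t := Y) (g := J) hJY]
    refine Finset.sum_le_sum fun j _ => ?_
    have e1 : ∑ x ∈ X.filter (fun x => J x = j),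
        ∏ v : InfinitePlace K, ((sq2 v.mult)⁻¹ * ((sq2 v.mult)⁻¹) ^ J x v) =
        ((X.filter fun x => J x = j).card : ℝ) *
          (A * ∏ v : InfinitePlace K, ((sq2 v.mult)⁻¹) ^ j v) := by
      rw [Finset.sum_congr rfl (g := fun _ => A * ∏ v : InfinitePlace K,
        ((sq2 v.mult)⁻¹) ^ j v) fun x hx => by
          rw [Finset.prod_mul_distrib, (Finset.mem_filter.1 hx).2]]
      rw [Finset.sum_const, nsmul_eq_mul]
    rw [e1]
    have hB0 : 0 < A * ∏ v : InfinitePlace K, ((sq2 v.mult)⁻¹) ^ j v :=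
      mul_pos hA0 (Finset.prod_pos fun v _ => pow_pos (inv_pos.2 (sq2_pos _)) _)
    refine (mul_le_mul_of_nonneg_right (hcnt j) hB0.le).trans (le_of_eq ?_)
    have e2 : (∏ v : InfinitePlace K, ((sq2 v.mult) ^ 2) ^ j v) *
        ∏ v : InfinitePlace K, ((sq2 v.mult)⁻¹) ^ j v =
        ∏ v : InfinitePlace K, (sq2 v.mult) ^ j v := by
      rw [← Finset.prod_mul_distrib]
      refine Finset.prod_congr rfl fun v _ => ?_
      rw [← mul_pow]
      congr 1
      have := (sq2_pos v.mult).ne'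
      field_simp
    rw [← e2]
    ring
  have hgeo : ∑ j ∈ Y, ∏ v : InfinitePlace K, (sq2 v.mult) ^ j v =
      ∏ v : InfinitePlace K, ∑ i ∈ Finset.range M, (sq2 v.mult) ^ i := by
    rw [hY, Finset.prod_univ_sum]
  have hgeo2 : ∀ v : InfinitePlace K, ∑ i ∈ Finset.range M, (sq2 v.mult) ^ i ≤ 4 := by
    intro v
    have h1 := sq2_le v.mult (mult_le v).1
    have h2 := sq2_pos v.mult
    have h3 : ∑ i ∈ Finset.range M, (sq2 v.mult) ^ i ≤ (1 - sq2 v.mult)⁻¹ := by
      rw [geom_sum_eq (by linarith)]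
      have h4 : 0 < 1 - sq2 v.mult := by linarith
      rw [← neg_div_neg_eq, inv_eq_one_div, neg_sub, neg_sub]
      gcongr
      have := pow_pos h2 M
      linarith
    have h4 : (1 - sq2 v.mult)⁻¹ ≤ 4 := by
      rw [inv_le_comm₀ (by linarith) (by norm_num)]
      linarith
    exact h3.trans h4
  have hcard : (Fintype.card (InfinitePlace K)) ≤ n := by
    rw [← hKn, ← InfinitePlace.sum_mult_eq (K := K)]
    calc Fintype.card (InfinitePlace K) = ∑ _v : InfinitePlace K, 1 := by simp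
      _ ≤ ∑ v : InfinitePlace K, v.mult := Finset.sum_le_sum fun v _ => (mult_le v).1
  have hall : A * ∏ v : InfinitePlace K, ∑ i ∈ Finset.range M, (sq2 v.mult) ^ i ≤ 8 ^ n := by
    rw [hA, ← Finset.prod_mul_distrib]
    calc ∏ v : InfinitePlace K, ((sq2 v.mult)⁻¹ * ∑ i ∈ Finset.range M, (sq2 v.mult) ^ i)
        ≤ ∏ _v : InfinitePlace K, (8 : ℝ) := by
          refine Finset.prod_le_prod (fun v _ => mul_nonneg (inv_nonneg.2 (sq2_pos _).le)
            (Finset.sum_nonneg fun i _ => pow_nonneg (sq2_pos _).le _)) fun v _ => ?_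
          have h1 : (sq2 v.mult)⁻¹ ≤ 2 := by
            rw [inv_le_comm₀ (sq2_pos _) (by norm_num)]
            have := le_sq2 v.mult (mult_le v).2
            linarith
          calc (sq2 v.mult)⁻¹ * ∑ i ∈ Finset.range M, (sq2 v.mult) ^ i ≤ 2 * 4 :=
                mul_le_mul h1 (hgeo2 v) (Finset.sum_nonneg fun i _ =>
                  pow_nonneg (sq2_pos _).le _) (by norm_num)
            _ = 8 := by norm_num
      _ = 8 ^ (Fintype.card (InfinitePlace K)) := by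
          rw [Finset.prod_const, Finset.card_univ]
      _ ≤ 8 ^ n := pow_le_pow_right₀ (by norm_num) hcard
  calc ∑ x ∈ X, ∏ v : InfinitePlace K, (‖wv v x y ω‖ / R v) ^ (-(v.mult : ℝ) / 2)
      ≤ ∑ x ∈ X, ∏ v : InfinitePlace K, ((sq2 v.mult)⁻¹ * ((sq2 v.mult)⁻¹) ^ J x v) :=
        Finset.sum_le_sum hterm
    _ ≤ ∑ j ∈ Y, 2 * C₀ * Q * A * ∏ v : InfinitePlace K, (sq2 v.mult) ^ j v := hsum
    _ = 2 * C₀ * Q * (A * ∏ v : InfinitePlace K, ∑ i ∈ Finset.range M, (sq2 v.mult) ^ i) := by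
        rw [← Finset.mul_sum, hgeo]
        ring
    _ ≤ 2 * C₀ * Q * 8 ^ n := mul_le_mul_of_nonneg_left hall (by positivity)
    _ = _ := by ring

end Pool.Agent.H20.SWL
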