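import Pool.Agent.H31.SW.TargetsG
import Pool.Agent.H29.DW.Tools

/-!
W_NB: the norm bound; W_CU: the number of the lattice points in a box.
-/

set_option autoImplicit false

open NumberField NumberField.InfinitePlace NumberField.Units Set Filter Complex
open scoped nonZeroDivisors

namespace Pool.Agent.H20.SWL

open Pool.Agent.H31.SW
open Pool.Agent.H23.LC Pool.Agent.H23.LB Pool.Agent.H25.HK
open Pool.Agent.H29.DW (dg Rl lf wv Pos Wg cpar Ci om zs rv norm_wv)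

section

variable {K : Type} [Field K] [NumberField K]

theorem absNorm_pos (L : FI K) (hL : L ≠ 0) : (0 : ℝ) < (FractionalIdeal.absNorm L : ℝ) := by
  have h1 : FractionalIdeal.absNorm L ≠ 0 := by
    rw [Ne, map_eq_zero]
    exact hL
  have h2 := FractionalIdeal.absNorm_nonneg L
  exact_mod_cast lt_of_le_of_ne h2 h1.symm

theorem absNorm_le (L : FI K) (hL : L ≠ 0) (x : K) (hx : x ∈ L) (hx0 : x ≠ 0) :
    (FractionalIdeal.absNorm L : ℝ) ≤ ((|Algebra.norm ℚ x| : ℚ) : ℝ) := by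
  have h1 : FractionalIdeal.spanSingleton (𝓞 K)⁰ x ≤ L :=
    FractionalIdeal.spanSingleton_le_iff_mem.2 hx
  have h2 : FractionalIdeal.spanSingleton (𝓞 K)⁰ x * L⁻¹ ≤ 1 := by
    calc FractionalIdeal.spanSingleton (𝓞 K)⁰ x * L⁻¹ ≤ L * L⁻¹ := mul_le_mul_left h1 _
      _ = 1 := mul_inv_cancel₀ hL
  obtain ⟨J, hJ⟩ := FractionalIdeal.le_one_iff_exists_coeIdeal.1 h2
  have h3 : FractionalIdeal.spanSingleton (𝓞 K)⁰ x = (J : FI K) * L := by
    rw [hJ, mul_assoc, inv_mul_cancel₀ hL, mul_one]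
  have h4 := congrArg FractionalIdeal.absNorm h3
  rw [map_mul, FractionalIdeal.coeIdeal_absNorm, FractionalIdeal.absNorm_span_singleton] at h4
  have hJ0 : J ≠ ⊥ := by
    rintro rfl
    rw [FractionalIdeal.coeIdeal_bot, zero_mul, FractionalIdeal.spanSingleton_eq_zero_iff] at h3
    exact hx0 h3
  have h5 : 1 ≤ Ideal.absNorm J := Nat.one_le_iff_ne_zero.2 fun h =>
    hJ0 (Ideal.absNorm_eq_zero_iff.1 h)
  have h6 : (1 : ℝ) ≤ (Ideal.absNorm J : ℝ) := by exact_mod_cast h5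
  rw [h4]
  push_cast
  exact le_mul_of_one_le_left (absNorm_pos L hL).le h6

theorem DD_pos (L : FI K) (hL : L ≠ 0) (y : InfinitePlace K → ℝ) : 0 < DD L y :=
  div_pos (Real.exp_pos _) (absNorm_pos L hL)

theorem PP_nonneg {R : InfinitePlace K → ℝ} (hR : ∀ v, 0 ≤ R v) : 0 ≤ PP R :=
  Finset.prod_nonneg fun v _ => pow_nonneg (hR v) _

end

theorem pf_NB : W_NB := by
  intro K _ _ L y ω x hL hω hx hx0
  have h1 := absNorm_le L hL x hx hx0
  have h2 := absNorm_pos L hL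
  have h3 : ∏ v : InfinitePlace K, ‖wv v x y ω‖ ^ v.mult =
      ((|Algebra.norm ℚ x| : ℚ) : ℝ) * Real.exp ((∑ v, (v.mult : ℝ) * y v) / 2) := by
    rw [← InfinitePlace.prod_eq_abs_norm x]
    rw [Finset.sum_div, Real.exp_sum, ← Finset.prod_mul_distrib]
    refine Finset.prod_congr rfl fun v _ => ?_
    rw [norm_wv v x y hω, mul_pow, ← Real.exp_nat_mul]
    congr 2
    ring
  rw [h3]
  unfold DD
  have h4 : Real.exp (-(∑ v, (v.mult : ℝ) * y v) / 2) *
      Real.exp ((∑ v, (v.mult : ℝ) * y v) / 2) = 1 := by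
    rw [← Real.exp_add]
    rw [show -(∑ v, (v.mult : ℝ) * y v) / 2 + (∑ v, (v.mult : ℝ) * y v) / 2 = 0 by ring,
      Real.exp_zero]
  have h5 : Real.exp (-(∑ v, (v.mult : ℝ) * y v) / 2) / (FractionalIdeal.absNorm L : ℝ) *
      (((|Algebra.norm ℚ x| : ℚ) : ℝ) * Real.exp ((∑ v, (v.mult : ℝ) * y v) / 2)) =
      ((|Algebra.norm ℚ x| : ℚ) : ℝ) / (FractionalIdeal.absNorm L : ℝ) := by
    rw [div_mul_eq_mul_div, mul_comm ((|Algebra.norm ℚ x| : ℚ) : ℝ), ← mul_assoc, h4, one_mul]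
  rw [h5, le_div_iff₀ h2, one_mul]
  exact h1

end Pool.Agent.H20.SWL
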